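import Mathlib
import Pool.Agent.H.MP_f02a84_al.Grp

namespace Pool.Agent.Results.MP_d3e052_al.NotFG

/-- the group `ℤ^m × F_n` -/
abbrev G (m n : ℕ) := Multiplicative (Fin m → ℤ) × FreeGroup (Fin n)

/-- auto-fixed closure -/
def aCl {Γ : Type} [Group Γ] (H : Subgroup Γ) : Subgroup Γ :=
  ⨅ φ ∈ {φ : Γ ≃* Γ | ∀ h ∈ H, φ h = h}, MonoidHom.eqLocus φ.toMonoidHom (MonoidHom.id Γ)

/-- endo-fixed closure -/
def eCl {Γ : Type} [Group Γ] (H : Subgroup Γ) : Subgroup Γ :=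
  ⨅ φ ∈ {φ : Γ →* Γ | ∀ h ∈ H, φ h = h}, MonoidHom.eqLocus φ (MonoidHom.id Γ)

abbrev F := FreeGroup (Fin 2)

def a : F := FreeGroup.of 0

def b : F := FreeGroup.of 1

def e : F →* Multiplicative ℤ := FreeGroup.lift ![Multiplicative.ofAdd 1, 1]

theorem ea : e a = Multiplicative.ofAdd 1 := by simp [e, a]

theorem eb : e b = 1 := by simp [e, b]

def c : Multiplicative ℤ →* Multiplicative (Fin 1 → ℤ) :=
  AddMonoidHom.toMultiplicative (Pi.constAddMonoidHom (Fin 1) ℤ)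

theorem c_inj (x : Multiplicative ℤ) (h : c x = 1) : x = 1 :=
  congrArg Multiplicative.ofAdd (congrFun (congrArg Multiplicative.toAdd h) 0)

def psi : G 1 2 ≃* G 1 2 where
  toFun g := (g.1 * c (e g.2), g.2)
  invFun g := (g.1 * (c (e g.2))⁻¹, g.2)
  left_inv g := by simp
  right_inv g := by simp
  map_mul' g h := by
    ext1
    · simp only [Prod.fst_mul, Prod.snd_mul, map_mul]
      exact mul_mul_mul_comm _ _ _ _
    · rfl

theorem psi_fix (g : G 1 2) : psi g = g ↔ e g.2 = 1 := by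
  constructor
  · intro h
    apply c_inj
    have : g.1 * c (e g.2) = g.1 := congrArg Prod.fst h
    simpa using this
  · intro h
    change (g.1 * c (e g.2), g.2) = g
    simp [h]

def H : Subgroup (G 1 2) :=
  Subgroup.closure {(1, b), (1, a * b * a⁻¹), (1, a⁻¹ * b * a)}

theorem H_fg : H.FG := (Subgroup.fg_iff _).2 ⟨_, rfl, Set.toFinite _⟩

theorem aCl_le (g : G 1 2) (hg : g ∈ aCl H) : e g.2 = 1 := by
  simp only [aCl, Subgroup.mem_iInf] at hg
  refine (psi_fix g).1 (hg psi fun h hh => ?_)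
  have : H ≤ MonoidHom.eqLocus psi.toMonoidHom (MonoidHom.id _) := by
    refine (Subgroup.closure_le _).2 ?_
    rintro x (rfl | rfl | rfl) <;> refine (psi_fix _).2 ?_ <;> simp [eb]
  exact this hh

theorem e_le_a : eCl H ≤ aCl H := by
  intro g hg
  simp only [aCl, eCl, Subgroup.mem_iInf] at hg ⊢
  exact fun φ hφ => hg φ.toMonoidHom hφ

theorem conj_mem (i : ℕ) : ((1, a ^ i * b * (a ^ i)⁻¹) : G 1 2) ∈ eCl H := by
  simp only [eCl, Subgroup.mem_iInf]
  intro φ hφ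
  have h1 : φ (1, b) = (1, b) := hφ _ (Subgroup.subset_closure (by simp))
  have h2 : φ (1, a * b * a⁻¹) = (1, a * b * a⁻¹) := hφ _ (Subgroup.subset_closure (by simp))
  have h3 : φ (1, a⁻¹ * b * a) = (1, a⁻¹ * b * a) := hφ _ (Subgroup.subset_closure (by simp))
  rw [show ((1, a * b * a⁻¹) : G 1 2) = (1, a) * (1, b) * (1, a)⁻¹ by simp] at h2
  rw [show ((1, a⁻¹ * b * a) : G 1 2) = (1, a)⁻¹ * (1, b) * (1, a) by simp] at h3
  rw [map_mul, map_mul, map_inv, h1] at h2 h3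
  set w := (φ (1, a)).2 with hw
  have k2 : w * b * w⁻¹ = a * b * a⁻¹ := congrArg Prod.snd h2
  have k3 : w⁻¹ * b * w = a⁻¹ * b * a := congrArg Prod.snd h3
  have c1 : Commute (a⁻¹ * w) b := by
    have : a⁻¹ * w * b = a⁻¹ * (w * b * w⁻¹) * w := by group
    rw [Commute, SemiconjBy, this, k2]; group
  have c2 : Commute (a⁻¹ * w) (a⁻¹ * b * a) := by
    have : a⁻¹ * w * (w⁻¹ * b * w) = a⁻¹ * b * a * (a⁻¹ * w) := by group
    rw [Commute, SemiconjBy, ← this, k3]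
  have hwa : w = a := by
    by_contra hne
    have := Pool.Agent.H.MP_f02a84_al.free_ct (g := a⁻¹ * w)
      (fun h => hne (inv_mul_eq_one.1 h).symm) c1 c2
    revert this
    unfold Commute SemiconjBy
    decide
  change φ _ = (1, a ^ i * b * (a ^ i)⁻¹)
  rw [show ((1, a ^ i * b * (a ^ i)⁻¹) : G 1 2) = (1, a) ^ i * (1, b) * ((1, a) ^ i)⁻¹ by simp,
    map_mul, map_mul, map_inv, map_pow, h1]
  ext1
  · simp
  · simp [← hw, hwa]

def pa : Equiv.Perm (ℤ × ℤ) := Equiv.addLeft (1, 0)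

def pb : Equiv.Perm (ℤ × ℤ) where
  toFun p := (p.1, p.2 + if p.1 = 0 then 1 else 0)
  invFun p := (p.1, p.2 - if p.1 = 0 then 1 else 0)
  left_inv p := by simp
  right_inv p := by simp

def f : F →* Equiv.Perm (ℤ × ℤ) := FreeGroup.lift ![pa, pb]

theorem far (g : F) : ∃ N : ℤ, ∀ n x : ℤ, N < n → f g (n, x) = (n + (e g).toAdd, x) := by
  induction g using FreeGroup.induction_on with
  | C1 => exact ⟨0, fun n x _ => by simp⟩
  | of i =>
    refine ⟨0, fun n x h => ?_⟩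
    fin_cases i
    · simp [f, e, pa, add_comm]
    · simp [f, e, pb, h.ne']
  | inv_of i h =>
    obtain ⟨N, hN⟩ := h
    refine ⟨N + (e (FreeGroup.of i)).toAdd, fun n x h => ?_⟩
    rw [map_inv, Equiv.Perm.inv_eq_iff_eq, hN _ _ (by simp; omega)]
    simp
  | mul g h hg hh =>
    obtain ⟨N, hN⟩ := hg
    obtain ⟨M, hM⟩ := hh
    refine ⟨max M (N - (e h).toAdd), fun n x hn => ?_⟩
    rw [map_mul, Equiv.Perm.mul_apply, hM _ _ (by omega), hN _ _ (by omega)]
    simp only [map_mul, toAdd_mul]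
    congr 1
    ring

theorem notFG (L : Subgroup (G 1 2)) (h1 : ∀ g ∈ L, e g.2 = 1)
    (h2 : ∀ i : ℕ, ((1, a ^ i * b * (a ^ i)⁻¹) : G 1 2) ∈ L) : ¬ L.FG := by
  rintro ⟨S, hS⟩
  choose N hN using far
  obtain ⟨M, hM⟩ := (S.image fun g => N g.2).bddAbove
  let i : ℕ := M.toNat + 1
  have key : ∀ g ∈ Subgroup.closure (S : Set (G 1 2)), ∀ x : ℤ, f g.2 ((i : ℤ), x) = ((i : ℤ), x) := by
    intro g hg
    induction hg using Subgroup.closure_induction with
    | mem g hg =>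
      intro x
      have : N g.2 ≤ M := hM (by simpa using ⟨g.1, g.2, hg, rfl⟩)
      rw [hN _ _ _ (by omega), h1 g (hS ▸ Subgroup.subset_closure hg)]
      simp
    | one => simp
    | mul g h _ _ hg hh => intro x; rw [Prod.snd_mul, map_mul, Equiv.Perm.mul_apply, hh, hg]
    | inv g _ hg => intro x; rw [Prod.snd_inv, map_inv, Equiv.Perm.inv_eq_iff_eq, hg]
  have := key _ (hS ▸ h2 i) 0
  have fa : f a = pa := by simp [f, a]
  have fb : f b = pb := by simp [f, b]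
  simp only [map_mul, map_inv, map_pow, fa, fb, pa, Equiv.nsmul_addLeft, Equiv.neg_addLeft,
    Equiv.Perm.mul_apply] at this
  simp [pb] at this

theorem result : ∃ (m n : ℕ) (H : Subgroup (G m n)), H.FG ∧ ¬ (aCl H).FG ∧ ¬ (eCl H).FG :=
  ⟨1, 2, H, H_fg, notFG _ aCl_le fun i => e_le_a (conj_mem i),
    notFG _ (fun g hg => aCl_le g (e_le_a hg)) conj_mem⟩

end Pool.Agent.Results.MP_d3e052_al.NotFG
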